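import Pool.Agent.W623.SecC.Defs

open Polynomial WeierstrassCurve WeierstrassCurve.Affine
open scoped nonZeroDivisors

namespace Pool.Agent.W417.SecC.A5

open Pool.Agent.W623.SecC

universe u

variable {K : Type u} [Field K] {W : WeierstrassCurve.Affine K}

open Classical in
/-- the unit fractional ideal of a point -/
theorem exU (P : W.Point) :
    ∃ U : (FractionalIdeal W.CoordinateRing⁰ (FractionRing W.CoordinateRing))ˣ,
      (U : FractionalIdeal W.CoordinateRing⁰ (FractionRing W.CoordinateRing)) = (idl P : Ideal W.CoordinateRing) ∧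
      ClassGroup.mk (FractionRing W.CoordinateRing) U =
        Additive.toMul (WeierstrassCurve.Affine.Point.toClass P) := by
  rcases P with _ | ⟨x, y, h⟩
  · refine ⟨1, ?_, ?_⟩
    · simp only [idl, Units.val_one]
      exact (FractionalIdeal.coeIdeal_top _).symm
    · rw [map_one]
      rfl
  · exact ⟨CoordinateRing.XYIdeal' (W := W) h, rfl, rfl⟩

open Classical in
theorem part1 (N : ℕ) (P : W.Point) (h : N • P = 0) :
    ∃ f : W.CoordinateRing, f ≠ 0 ∧ idl P ^ N = Ideal.span {f} := by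
  obtain ⟨U, hU1, hU2⟩ := exU P
  have hc : ((U ^ N : (FractionalIdeal W.CoordinateRing⁰ (FractionRing W.CoordinateRing))ˣ) :
      FractionalIdeal W.CoordinateRing⁰ (FractionRing W.CoordinateRing)) =
      ((idl P ^ N : Ideal W.CoordinateRing)) := by
    rw [Units.val_pow_eq_pow_val, hU1, FractionalIdeal.coeIdeal_pow]
  refine (ClassGroup.mk_eq_one_of_coe_ideal hc).mp ?_
  rw [map_pow, hU2, ← toMul_nsmul, ← map_nsmul, h, map_zero]
  rfl

open Classical in
theorem part2 (P Q : W.Point) : ∃ a b : W.CoordinateRing, a ≠ 0 ∧ b ≠ 0 ∧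
      Ideal.span {a} * (idl P * idl Q) = Ideal.span {b} * idl (P + Q) := by
  obtain ⟨U, hU1, hU2⟩ := exU P
  obtain ⟨V, hV1, hV2⟩ := exU Q
  obtain ⟨R, hR1, hR2⟩ := exU (P + Q)
  have hc : ((U * V : (FractionalIdeal W.CoordinateRing⁰ (FractionRing W.CoordinateRing))ˣ) :
      FractionalIdeal W.CoordinateRing⁰ (FractionRing W.CoordinateRing)) =
      ((idl P * idl Q : Ideal W.CoordinateRing)) := by
    rw [Units.val_mul, hU1, hV1, FractionalIdeal.coeIdeal_mul]
  refine (ClassGroup.mk_eq_mk_of_coe_ideal hc hR1).mp ?_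
  rw [map_mul, hU2, hV2, hR2, ← toMul_add, ← map_add]

open Classical in
theorem part3 (k : ℕ) (P : W.Point) : ∃ a b : W.CoordinateRing, a ≠ 0 ∧ b ≠ 0 ∧
      Ideal.span {a} * idl P ^ k = Ideal.span {b} * idl (k • P) := by
  obtain ⟨U, hU1, hU2⟩ := exU P
  obtain ⟨R, hR1, hR2⟩ := exU (k • P)
  have hc : ((U ^ k : (FractionalIdeal W.CoordinateRing⁰ (FractionRing W.CoordinateRing))ˣ) :
      FractionalIdeal W.CoordinateRing⁰ (FractionRing W.CoordinateRing)) =
      ((idl P ^ k : Ideal W.CoordinateRing)) := by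
    rw [Units.val_pow_eq_pow_val, hU1, FractionalIdeal.coeIdeal_pow]
  refine (ClassGroup.mk_eq_mk_of_coe_ideal hc hR1).mp ?_
  rw [map_pow, hU2, hR2, ← toMul_nsmul, ← map_nsmul]

theorem unit_const (u : W.CoordinateRing) (hu : IsUnit u) :
    ∃ c : K, c ≠ 0 ∧ u = algebraMap K W.CoordinateRing c := by
  obtain ⟨p, q, rfl⟩ := CoordinateRing.exists_smul_basis_eq u
  have hn := hu.map (Algebra.norm K[X])
  have hd := CoordinateRing.degree_norm_smul_basis (W' := W) p q
  rw [Polynomial.degree_eq_zero_of_isUnit hn] at hd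
  have hq : q = 0 := by
    by_contra hq
    rw [Polynomial.degree_eq_natDegree hq] at hd
    have : ((2 • (q.natDegree : WithBot ℕ)) + 3) ≤ 0 := by
      rw [hd]; exact le_max_right _ _
    rw [nsmul_eq_mul] at this
    norm_cast at this
  subst hq
  have hp0 : p.degree = 0 := by
    by_cases hp : p = 0
    · subst hp
      simp at hd
    · rw [Polynomial.degree_eq_natDegree hp] at hd ⊢
      simp only [degree_zero] at hd
      have hb : (2 • (⊥ : WithBot ℕ) + 3) = ⊥ := by
        rw [two_nsmul]; rfl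
      rw [hb, max_bot_right, nsmul_eq_mul] at hd
      norm_cast at hd ⊢
      omega
  obtain ⟨c, hc⟩ : ∃ c, p = C c := ⟨p.coeff 0, Polynomial.eq_C_of_degree_eq_zero hp0⟩
  subst hc
  have hc0 : c ≠ 0 := by
    rintro rfl
    simp at hp0
  refine ⟨c, hc0, ?_⟩
  rw [zero_smul, add_zero, CoordinateRing.smul, mul_one]
  rfl

theorem part4 (a b : W.CoordinateRing) (_ : b ≠ 0) (h : Ideal.span {a} = Ideal.span {b}) :
      ∃ c : K, c ≠ 0 ∧ a = algebraMap K W.CoordinateRing c * b := by
  obtain ⟨u, hu⟩ := (Ideal.span_singleton_eq_span_singleton.mp h.symm : Associated b a)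
  obtain ⟨c, hc, hcu⟩ := unit_const (u : W.CoordinateRing) u.isUnit
  exact ⟨c, hc, by rw [← hu, hcu, mul_comm]⟩

theorem partA5 : PartA5.{u} := fun _ _ _ => ⟨part1, part2, part3, part4⟩

end Pool.Agent.W417.SecC.A5
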