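import Pool.Agent.W623.SecC.Defs

namespace Pool.Agent.W417.SecC.D2

open Pool.Agent.W623.SecC NumberField IsDedekindDomain

universe u

variable {K : Type u} [Field K] [NumberField K]

/-- the classes modulo the square of the prime of the elements without valuation one -/
def AA (v : Ideal (𝓞 K)) : Set (𝓞 K ⧸ v ^ 2) :=
  (Ideal.Quotient.mk (v ^ 2)) '' {a | a ∈ v → a ∈ v ^ 2}

theorem card_sq (v : HeightOneSpectrum (𝓞 K)) :
    Nat.card (𝓞 K ⧸ v.asIdeal ^ 2) = Ideal.absNorm v.asIdeal ^ 2 := by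
  have h := map_pow Ideal.absNorm v.asIdeal 2
  rw [Ideal.absNorm_apply, Submodule.cardQuot_apply] at h
  exact h

theorem norm_pos (v : HeightOneSpectrum (𝓞 K)) : 0 < Ideal.absNorm v.asIdeal := by
  rw [Nat.pos_iff_ne_zero]
  intro h
  rw [Ideal.absNorm_eq_zero_iff] at h
  exact v.ne_bot h

theorem card_ker (v : HeightOneSpectrum (𝓞 K)) :
    Nat.card (v.asIdeal.map (Ideal.Quotient.mk (v.asIdeal ^ 2)) : Ideal (𝓞 K ⧸ v.asIdeal ^ 2)) =
      Ideal.absNorm v.asIdeal := by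
  have h1 := Submodule.card_eq_card_quotient_mul_card
    (v.asIdeal.map (Ideal.Quotient.mk (v.asIdeal ^ 2)) : Ideal (𝓞 K ⧸ v.asIdeal ^ 2))
  have hle : v.asIdeal ^ 2 ≤ v.asIdeal := Ideal.pow_le_self two_ne_zero
  have h2 : Nat.card ((𝓞 K ⧸ v.asIdeal ^ 2) ⧸
      (v.asIdeal.map (Ideal.Quotient.mk (v.asIdeal ^ 2)) : Ideal (𝓞 K ⧸ v.asIdeal ^ 2))) =
      Ideal.absNorm v.asIdeal := by
    rw [Ideal.absNorm_apply, Submodule.cardQuot_apply]
    exact Nat.card_congr (DoubleQuot.quotQuotEquivQuotOfLE hle).toEquiv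
  rw [card_sq, h2, sq] at h1
  exact (Nat.eq_of_mul_eq_mul_right (norm_pos v) h1).symm

theorem card_AA (v : HeightOneSpectrum (𝓞 K)) :
    ((AA v.asIdeal).ncard : ℝ) ≤
      (1 - (1 / (Ideal.absNorm v.asIdeal : ℝ) - 1 / (Ideal.absNorm v.asIdeal : ℝ) ^ 2)) *
        (Ideal.absNorm v.asIdeal : ℝ) ^ 2 := by
  set N := Ideal.absNorm v.asIdeal with hN
  have hNp : 0 < N := norm_pos v
  set J : Ideal (𝓞 K ⧸ v.asIdeal ^ 2) := v.asIdeal.map (Ideal.Quotient.mk (v.asIdeal ^ 2)) with hJ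
  have hfin : Finite (𝓞 K ⧸ v.asIdeal ^ 2) := by
    apply Nat.finite_of_card_ne_zero
    rw [card_sq]
    positivity
  have hle : v.asIdeal ^ 2 ≤ v.asIdeal := Ideal.pow_le_self two_ne_zero
  have hdisj : Disjoint (AA v.asIdeal) ((J : Set (𝓞 K ⧸ v.asIdeal ^ 2)) \ {0}) := by
    rw [Set.disjoint_left]
    rintro _ ⟨a, ha, rfl⟩ ⟨h1, h2⟩
    apply h2
    rw [Set.mem_singleton_iff, Ideal.Quotient.eq_zero_iff_mem]
    apply ha
    have : a ∈ J.comap (Ideal.Quotient.mk (v.asIdeal ^ 2)) := h1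
    rw [hJ, Ideal.comap_map_of_surjective _ Ideal.Quotient.mk_surjective, ← RingHom.ker_eq_comap_bot,
      Ideal.mk_ker] at this
    rwa [sup_eq_left.mpr hle] at this
  have hJc : ((J : Set (𝓞 K ⧸ v.asIdeal ^ 2)) \ {0}).ncard = N - 1 := by
    rw [Set.ncard_sdiff_singleton_of_mem J.zero_mem]
    congr 1
    exact card_ker v
  have h1 : (AA v.asIdeal).ncard + ((J : Set (𝓞 K ⧸ v.asIdeal ^ 2)) \ {0}).ncard ≤ N ^ 2 := by
    rw [← Set.ncard_union_eq hdisj (Set.toFinite _) (Set.toFinite _), ← card_sq, ← Set.ncard_univ]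
    exact Set.ncard_le_ncard (Set.subset_univ _) (Set.toFinite _)
  rw [hJc] at h1
  have h2 : (AA v.asIdeal).ncard + N ≤ N ^ 2 + 1 := by omega
  have h3 : ((AA v.asIdeal).ncard : ℝ) + N ≤ (N : ℝ) ^ 2 + 1 := by exact_mod_cast h2
  have hN0 : (N : ℝ) ≠ 0 := by positivity
  have h4 : (1 - (1 / (N : ℝ) - 1 / (N : ℝ) ^ 2)) * (N : ℝ) ^ 2 = (N : ℝ) ^ 2 - N + 1 := by
    field_simp
    ring
  rw [h4]
  linarith

theorem crt {R : Type u} [CommRing R] [IsDedekindDomain R] (T : Finset (HeightOneSpectrum R)) :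
    ∃ e : (R ⧸ ∏ v ∈ T, v.asIdeal ^ 2) ≃+* ((v : T) → R ⧸ v.1.asIdeal ^ 2),
      ∀ (a : R) (v : T), e (Ideal.Quotient.mk _ a) v = Ideal.Quotient.mk _ a :=
  ⟨IsDedekindDomain.quotientEquivPiOfFinsetProdEq (s := T)
    (∏ v ∈ T, v.asIdeal ^ 2) (fun v => v.asIdeal) (fun _ => 2) (fun v _ => v.prime)
    (fun _ _ _ _ h h' => h (HeightOneSpectrum.ext h')) rfl, fun _ _ => rfl⟩

/-- the counting part, for an abstract product -/
theorem count {R : Type u} [CommRing R] (I : Ideal R) (ι : Type u) [Fintype ι] (B : ι → Ideal R)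
    (e : (R ⧸ I) ≃+* ((v : ι) → R ⧸ B v))
    (he : ∀ (a : R) (v : ι), e (Ideal.Quotient.mk _ a) v = Ideal.Quotient.mk _ a)
    (hfin : ∀ v, Finite (R ⧸ B v)) (E : Set R) (S : (v : ι) → Set (R ⧸ B v))
    (hE : ∀ a ∈ E, ∀ v, Ideal.Quotient.mk (B v) a ∈ S v) :
    ((Ideal.Quotient.mk I) '' E).ncard ≤ ∏ v, (S v).ncard := by
  have himg : (e '' ((Ideal.Quotient.mk I) '' E)) ⊆ Set.pi Set.univ S := by
    rintro _ ⟨_, ⟨a, ha, rfl⟩, rfl⟩ v _
    rw [he]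
    exact hE a ha v
  rw [← Set.ncard_image_of_injective _ e.injective]
  have h2 : (Set.pi Set.univ S).ncard = ∏ v, (S v).ncard := by
    rw [← Nat.card_coe_set_eq, Nat.card_congr (Equiv.Set.univPi _), Nat.card_pi]
    simp_rw [Nat.card_coe_set_eq]
  rw [← h2]
  exact Set.ncard_le_ncard himg (Set.toFinite _)

theorem partD2 : PartD2.{u} := by
  intro K _ _ T E hE
  classical
  obtain ⟨e, he⟩ := crt T
  have hfin : ∀ v : T, Finite (𝓞 K ⧸ v.1.asIdeal ^ 2) := by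
    intro v
    apply Nat.finite_of_card_ne_zero
    rw [card_sq]
    exact pow_ne_zero _ (norm_pos _).ne'
  have hcard : (Nat.card (𝓞 K ⧸ ∏ v ∈ T, v.asIdeal ^ 2) : ℝ) =
      ∏ v ∈ T, (Ideal.absNorm v.asIdeal : ℝ) ^ 2 := by
    rw [Nat.card_congr e.toEquiv, Nat.card_pi, ← Finset.prod_coe_sort T]
    push_cast
    refine Finset.prod_congr rfl fun v _ => ?_
    rw [card_sq]
    push_cast
    rfl
  have h1 := count (∏ v ∈ T, v.asIdeal ^ 2) T (fun v => v.1.asIdeal ^ 2) e he hfin E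
    (fun v => AA v.1.asIdeal) (fun a ha v => ⟨a, hE a ha v.1 v.2, rfl⟩)
  have h1' : (((Ideal.Quotient.mk (∏ v ∈ T, v.asIdeal ^ 2)) '' E).ncard : ℝ) ≤
      ∏ v : T, ((AA v.1.asIdeal).ncard : ℝ) := by
    exact_mod_cast h1
  refine h1'.trans ?_
  rw [hcard, ← Finset.prod_mul_distrib, ← Finset.prod_coe_sort T]
  exact Finset.prod_le_prod (fun _ _ => by positivity) fun v _ => card_AA v.1

end Pool.Agent.W417.SecC.D2
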